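import Pool.Agent.Helper68.QC.St6

/-!
# Project QD (MP_d112a4_gt), PART M, module EQM: equivariance for dilations
-/

set_option autoImplicit false

open MeasureTheory Set Filter Topology Complex
open scoped ContDiff ComplexConjugate ENNReal

namespace Pool.Agent.Helper99.QCM

open Pool.Agent.Helper68.QC

private theorem EQM_sol (hPRE : StPRE) (hPOS : StPOS) (μ : ℂ → ℂ) (w : ℂ ≃ₜ ℂ) (l L : ℂ)
    (hs : Sol μ univ w) (hI : InvL l μ) :
    Sol μ univ (fun z => w (Complex.exp l * z) * L⁻¹) := by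
  have he : Complex.exp l ≠ 0 := Complex.exp_ne_zero l
  have hder : ∀ z : ℂ, deriv (fun ξ : ℂ => Complex.exp l * ξ) z = Complex.exp l := by
    intro z
    rw [deriv_const_mul_field, deriv_id'', mul_one]
  have h1 := hPRE μ univ univ w (fun ξ => Complex.exp l * ξ) isOpen_univ isOpen_univ
    (by fun_prop) (fun x _ y _ hxy => mul_left_cancel₀ he hxy) (fun x _ => mem_univ _)
    (fun z _ => by rw [hder]; exact he) hs
  obtain ⟨a, b, hwd, hab⟩ := h1
  have h2 : Sol μ univ (fun z => w (Complex.exp l * z)) := by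
    refine ⟨a, b, hwd, ?_⟩
    rw [Measure.restrict_univ] at hab ⊢
    filter_upwards [hab, hI] with z hz hz'
    rw [hz, hder]
    have h3 : μ (Complex.exp l * z) * (conj (Complex.exp l) / Complex.exp l) = μ z := by
      rw [mul_div_assoc', hz', mul_div_assoc, div_self he, mul_one]
    rw [h3]
  exact hPOS μ univ univ (fun z => w (Complex.exp l * z)) (fun x => x * L⁻¹) isOpen_univ
    isOpen_univ (by fun_prop) (fun x _ => mem_univ _) h2

theorem pEQM : Pool.Agent.Helper68.QC.StEQM := by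
  intro hEX hUNI hPRE hPOS k hk μ hB l hl hI
  obtain ⟨w, hw⟩ : ∃ w, w = nq μ := ⟨_, rfl⟩
  obtain ⟨e, he⟩ : ∃ e, e = Complex.exp l := ⟨_, rfl⟩
  have hN : IsNq μ w := by
    rw [hw]
    exact hEX k hk μ hB
  have hU := hUNI k hk μ hB
  rw [← hw] at hU ⊢
  have he0 : e ≠ 0 := by
    rw [he]
    exact Complex.exp_ne_zero l
  have hL0 : w e ≠ 0 := by
    intro h
    rw [← hN.zero] at h
    exact he0 (w.injective h)
  have hsol := EQM_sol hPRE hPOS μ w l (w e) hN.sol hI
  rw [← he] at hsol ⊢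
  obtain ⟨W, hWd⟩ : ∃ W : ℂ ≃ₜ ℂ, ∀ z, W z = w (e * z) * (w e)⁻¹ :=
    ⟨(Homeomorph.mulLeft₀ e he0).trans (w.trans (Homeomorph.mulRight₀ (w e)⁻¹ (inv_ne_zero hL0))),
      fun z => rfl⟩
  have hWf : (W : ℂ → ℂ) = fun z => w (e * z) * (w e)⁻¹ := funext hWd
  have hWw : W = w := by
    refine hU W ?_ ?_ ∅ finite_empty ?_
    · rw [hWd, mul_zero, hN.zero, zero_mul]
    · rw [hWd, mul_one, mul_inv_cancel₀ hL0]
    · rw [compl_empty, hWf]
      exact hsol
  have heq : ∀ ξ, w (e * ξ) = w e * w ξ := by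
    intro ξ
    have h := hWd ξ
    rw [hWw] at h
    rw [h]
    field_simp
  refine ⟨?_, heq⟩
  by_contra hlt
  have hle : ‖w e‖ ≤ 1 := not_lt.1 hlt
  have hpow : ∀ n : ℕ, w (e ^ n) = w e ^ n := by
    intro n
    induction n with
    | zero => rw [pow_zero, pow_zero, hN.one]
    | succ n ih => rw [pow_succ', heq, ih, pow_succ']
  have hne : 1 < ‖e‖ := by
    rw [he, Complex.norm_exp]
    exact Real.one_lt_exp_iff.2 hl
  have t1 : Tendsto (fun n : ℕ => e ^ n) atTop (cocompact ℂ) := by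
    rw [← Metric.cobounded_eq_cocompact, ← tendsto_norm_atTop_iff_cobounded]
    simp only [norm_pow]
    exact tendsto_pow_atTop_atTop_of_one_lt hne
  have t2 : Tendsto (fun n : ℕ => w (e ^ n)) atTop (cocompact ℂ) :=
    w.isClosedEmbedding.tendsto_cocompact.comp t1
  rw [← Metric.cobounded_eq_cocompact, ← tendsto_norm_atTop_iff_cobounded] at t2
  obtain ⟨n, hn⟩ := (t2.eventually (eventually_gt_atTop (1 : ℝ))).exists
  rw [hpow, norm_pow] at hn
  exact absurd (pow_le_one₀ (norm_nonneg _) hle) (not_le.2 hn)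

end Pool.Agent.Helper99.QCM
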