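import Pool.Agent.Helper68.QC.St3

/-!
# Project QD (MP_d112a4_gt), PART M, module UNX: uniqueness of the normalised solution
-/

set_option autoImplicit false

open MeasureTheory Set Filter Topology Complex
open scoped ContDiff ComplexConjugate ENNReal

namespace Pool.Agent.Helper99.QCM

open Pool.Agent.Helper68.QC

/-- A continuous function which is holomorphic outside a finite set is entire. -/
private theorem UNX_entire (h : ℂ → ℂ) (T : Set ℂ) (hT : T.Finite) (hc : Continuous h)
    (hd : DifferentiableOn ℂ h Tᶜ) : Differentiable ℂ h := by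
  intro z
  have hf : (T \ {z}).Finite := hT.subset sdiff_subset
  have ho : IsOpen (T \ {z})ᶜ := hf.isClosed.isOpen_compl
  have hz : z ∈ (T \ {z})ᶜ := by simp
  have hn : (T \ {z})ᶜ ∈ 𝓝 z := ho.mem_nhds hz
  have h1 : DifferentiableOn ℂ h ((T \ {z})ᶜ \ {z}) := by
    refine hd.mono ?_
    intro x hx hxT
    exact hx.1 ⟨hxT, hx.2⟩
  exact ((Complex.differentiableOn_compl_singleton_and_continuousAt_iff hn).1
    ⟨h1, hc.continuousAt⟩).differentiableAt hn

theorem pUNX (hFA0 : StFA0) (hAFF : StAFF) : Pool.Agent.Helper68.QC.StUNX := by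
  intro k w w' a b μ S hQ hb h0 h1 h0' h1' hS hsol
  have hd := hFA0 k w a b μ hQ hb Sᶜ w' hS.isClosed.isOpen_compl hsol
  have himg : w '' Sᶜ = (w '' S)ᶜ := Set.image_compl_eq w.bijective
  rw [himg] at hd
  have hc : Continuous (fun ζ => w' (w.symm ζ)) := w'.continuous.comp w.symm.continuous
  have hD := UNX_entire _ (w '' S) (hS.image _) hc hd
  have hinj : Function.Injective (fun ζ => w' (w.symm ζ)) :=
    w'.injective.comp w.symm.injective
  obtain ⟨α, β, -, hab⟩ := hAFF _ hD hinj
  have s0 : w.symm 0 = 0 := by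
    rw [Homeomorph.symm_apply_eq, h0]
  have s1 : w.symm 1 = 1 := by
    rw [Homeomorph.symm_apply_eq, h1]
  have e0 := hab 0
  have e1 := hab 1
  simp only [s0, h0', mul_zero, zero_add] at e0
  simp only [s1, h1', ← e0, mul_one, add_zero] at e1
  ext z
  have e2 := hab (w z)
  simp only [Homeomorph.symm_apply_apply, ← e0, ← e1, one_mul, add_zero] at e2
  exact e2

end Pool.Agent.Helper99.QCM
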